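import Pool.Agent.helper22.GS.Spec

/-!
# Project gs: (MP_561ff4_al), module MX: dictionary between matrices and semisimilarities
-/

set_option autoImplicit false

namespace Pool.Agent.GS

open Module

theorem MX (hA : MXA_stmt) (hP : MXP_stmt) (hY : MXY_stmt) : MX_stmt := by
  intro n F _ hn
  obtain ⟨h1, h2⟩ := hA n F
  obtain ⟨φ, h3, h4, h5⟩ := hP n F
  refine ⟨h1, h2, φ, h3, h4, h5, ?_⟩
  intro A ψ ν hν
  obtain ⟨⟨y, hy, hyv⟩, hg⟩ := hY n F hn A ψ ν hν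
  refine ⟨y, hy, hyv, fun g => ?_⟩
  obtain ⟨h, hh⟩ := hg g
  refine ⟨h, hh, ?_⟩
  rw [eq_mul_inv_iff_mul_eq]
  ext1 v
  rw [Equiv.Perm.mul_apply, Equiv.Perm.mul_apply, h5, hyv, hyv, hh, Matrix.mulVec_mulVec]
  have e1 : (A : Matrix (Fin n ⊕ Fin n) (Fin n ⊕ Fin n) F) *
      (g : Matrix (Fin n ⊕ Fin n) (Fin n ⊕ Fin n) F).map ψ *
      (A⁻¹ : (Matrix (Fin n ⊕ Fin n) (Fin n ⊕ Fin n) F)ˣ) * A =
      (A : Matrix (Fin n ⊕ Fin n) (Fin n ⊕ Fin n) F) *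
        (g : Matrix (Fin n ⊕ Fin n) (Fin n ⊕ Fin n) F).map ψ := by
    rw [mul_assoc, Units.inv_mul, mul_one]
  have e2 : (fun i => ψ (φ g v i)) =
      ((g : Matrix (Fin n ⊕ Fin n) (Fin n ⊕ Fin n) F).map ψ).mulVec (fun i => ψ (v i)) := by
    funext i
    rw [h5]
    exact RingHom.map_mulVec (ψ : F →+* F) _ v i
  rw [e1, e2, Matrix.mulVec_mulVec]

end Pool.Agent.GS
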