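import Pool.Agent.helper22.GS.Spec

/-!
# Project gs: (MP_561ff4_al), module PR: primes dividing the order
-/

set_option autoImplicit false

namespace Pool.Agent.GS

open Module

theorem PR (hMX : MX_stmt) (hPD : PD_stmt) : PR_stmt := by
  intro n F _ _ r hn hr hdvd
  by_cases hrF : r ∣ Nat.card F
  · exact Or.inl hrF
  refine Or.inr ?_
  obtain ⟨hAlt, hfin, φ, hinj, hrange, -, -⟩ := hMX n F hn
  have h1 : r ∣ Nat.card (Matrix.symplecticGroup (Fin n) F) :=
    hdvd.trans (Subgroup.card_quotient_dvd_card _)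
  have : Fact r.Prime := ⟨hr⟩
  obtain ⟨g, hg⟩ := exists_prime_orderOf_dvd_card' r h1
  have hg1 : g ^ r = 1 := by
    rw [← hg]
    exact pow_orderOf_eq_one g
  have hg2 : g ≠ 1 := by
    intro h
    rw [h, orderOf_one] at hg
    exact hr.one_lt.ne hg
  have h3 : φ g ∈ SpG (BJ n F) := by
    rw [← hrange]
    exact ⟨g, rfl⟩
  obtain ⟨U, i, -, hi1, hi2, hi3⟩ := hPD (BJ n F) hAlt (φ g) h3 r hr hrF
    (by rw [← map_pow, hg1, map_one])
    (by
      intro h
      exact hg2 (hinj (by rw [h, map_one])))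
  exact ⟨i, hi1, by omega, hi3⟩

end Pool.Agent.GS
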